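import Pool.Agent.X136.IT.Path
import Pool.Agent.H985R3.IL.IL1
import Pool.Agent.H985R3.TA.STA

set_option autoImplicit false

/-!
# The interface is determined by the exploration
-/

namespace Pool.Agent.X136.IT

open Finset H974 H984P H985BT
open H984H (step nxt_step step_nxt)
open Pool.Agent.X136.NW (bulk_disj)
open Pool.Agent.X136.QE (xe step_xe iter_reach iter_dreach)

theorem step_inj (G : Set Edg) : Function.Injective (step G) := by
  intro σ τ h
  rw [← nxt_step G σ, ← nxt_step G τ, h]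

theorem wired_corner (m k : ℕ) (ω : Finset Edg) : Reach (Op m k ω) (0, 0) ((m : ℤ), 0) := by
  have h := H985BT.wired_line (m := m) (k := k) (v := ((m : ℤ), 0)) (by simp) (Or.inr le_rfl)
  exact h.mono (Set.subset_union_right)

theorem inWired_iff {m k : ℕ} {ω : Finset Edg} {v : Vtx} :
    InWired m k ω v ↔ Reach (Op m k ω) ((m : ℤ), 0) v :=
  ⟨fun h => (wired_corner m k ω).symm.trans h, fun h => (wired_corner m k ω).trans h⟩

theorem op_sub {m k : ℕ} {ω : Finset Edg} (hω : ω ⊆ bulk m k) : ∀ e ∈ Op m k ω, e ∈ RE 0 m 0 k := by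
  rintro e (h | h)
  · exact H985BT.bulk_sub m k (hω h)
  · exact H985BT.wired_sub m k h

theorem reach_rect {m k : ℕ} {G : Set Edg} (hG : ∀ e ∈ G, e ∈ RE 0 m 0 k) {u v : Vtx}
    (h : Reach G u v) (hu : Rg m k u) : Rg m k v := by
  induction h with
  | refl => exact hu
  | @tail b c _ hs _ =>
    obtain ⟨e, he, hec⟩ := hs
    have h1 := hG e he
    obtain ⟨x, y, t⟩ := e
    unfold Rg
    cases t
    · rw [mem_RE_false] at h1
      rw [src_mk, tgt_false] at hec
      rcases hec with ⟨-, h2⟩ | ⟨h2, -⟩ <;>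
      · rw [← h2]; simp only; omega
    · rw [mem_RE_true] at h1
      rw [src_mk, tgt_true] at hec
      rcases hec with ⟨-, h2⟩ | ⟨h2, -⟩ <;>
      · rw [← h2]; simp only; omega

theorem pt_reach (m k : ℕ) (ω : Finset Edg) (t : ℕ) : Reach (Op m k ω) ((m : ℤ), 0) (pt m k ω t).1 :=
  iter_reach (Op m k ω) (((m : ℤ), 0), .ne) t

theorem pt_rect {m k : ℕ} {ω : Finset Edg} (hω : ω ⊆ bulk m k) (t : ℕ) : Rg m k (pt m k ω t).1 :=
  reach_rect (op_sub hω) (pt_reach m k ω t) ⟨⟨by simp, by simp⟩, by simp, by simp⟩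

/-- a bound for the number of the states -/
def TT (m k : ℕ) : ℕ := 4 * ((m + 1) * (k + 1))

theorem period {m k : ℕ} {ω : Finset Edg} (hω : ω ⊆ bulk m k) :
    ∃ p, 1 ≤ p ∧ p ≤ TT m k ∧ pt m k ω p = (((m : ℤ), 0), .ne) := by
  have h1 : ∀ t ∈ Finset.range (TT m k + 1), pt m k ω t ∈
      ((Finset.Icc (0 : ℤ) m ×ˢ Finset.Icc (0 : ℤ) k) ×ˢ (Finset.univ : Finset Q4)) := by
    intro t _
    have := pt_rect hω t
    rw [mem_product, mem_product, mem_Icc, mem_Icc]
    exact ⟨this, mem_univ _⟩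
  have hcard : ((Finset.Icc (0 : ℤ) m ×ˢ Finset.Icc (0 : ℤ) k) ×ˢ (Finset.univ : Finset Q4)).card <
      (Finset.range (TT m k + 1)).card := by
    rw [card_product, card_product, Int.card_Icc, Int.card_Icc, card_univ, card_range]
    have h3 : Fintype.card Q4 = 4 := by decide
    have e1 : ((m : ℤ) + 1 - 0).toNat = m + 1 := by omega
    have e2 : ((k : ℤ) + 1 - 0).toNat = k + 1 := by omega
    rw [h3, e1, e2]
    unfold TT
    omega
  obtain ⟨i, hi, j, hj, hne, hij⟩ := exists_ne_map_eq_of_card_lt_of_maps_to hcard h1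
  rw [mem_range] at hi hj
  have key : ∀ i j : ℕ, i < j → j < TT m k + 1 → pt m k ω i = pt m k ω j →
      ∃ p, 1 ≤ p ∧ p ≤ TT m k ∧ pt m k ω p = (((m : ℤ), 0), .ne) := by
    intro i j hij hj h
    refine ⟨j - i, by omega, by omega, ?_⟩
    have h2 : (step (Op m k ω))^[i] (pt m k ω (j - i)) = (step (Op m k ω))^[i] (((m : ℤ), 0), .ne) := by
      unfold pt at h ⊢
      rw [← Function.iterate_add_apply, Nat.add_sub_cancel' hij.le, ← h]
    exact (step_inj _).iterate i h2
  rcases lt_or_gt_of_ne hne with h | h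
  · exact key i j h hj hij
  · exact key j i h hi hij.symm

theorem pt_add (m k : ℕ) (ω : Finset Edg) (s t : ℕ) :
    pt m k ω (s + t) = (step (Op m k ω))^[s] (pt m k ω t) := Function.iterate_add_apply _ _ _ _

theorem pt_small {m k : ℕ} {ω : Finset Edg} (hω : ω ⊆ bulk m k) (t : ℕ) :
    ∃ s < TT m k, pt m k ω s = pt m k ω t := by
  obtain ⟨p, hp1, hp2, hp⟩ := period hω
  induction t using Nat.strong_induction_on with
  | _ t ih =>
    rcases lt_or_ge t (TT m k) with h | h
    · exact ⟨t, h, rfl⟩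
    · obtain ⟨s, hs, hs2⟩ := ih (t - p) (by omega)
      refine ⟨s, hs, ?_⟩
      rw [hs2]
      have h3 : pt m k ω t = pt m k ω (t - p + p) := by rw [Nat.sub_add_cancel (by omega)]
      rw [h3, pt_add, hp]
      rfl

/-- the orbit -/
def Ob (m k : ℕ) (ω : Finset Edg) : Set St := {τ | ∃ t, pt m k ω t = τ}

theorem ob_inv {m k : ℕ} {ω : Finset Edg} (hω : ω ⊆ bulk m k) (σ : St) :
    σ ∈ Ob m k ω ↔ nxt (Op m k ω) σ ∈ Ob m k ω := by
  constructor
  · rintro ⟨t, rfl⟩
    cases t with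
    | zero =>
      obtain ⟨p, hp1, -, hp⟩ := period hω
      refine ⟨p - 1, ?_⟩
      have h1 : pt m k ω 0 = pt m k ω (p - 1 + 1) := by
        rw [Nat.sub_add_cancel hp1, hp]; rfl
      rw [h1, pt_succ, nxt_step]
    | succ t =>
      exact ⟨t, by rw [pt_succ, nxt_step]⟩
  · rintro ⟨t, ht⟩
    exact ⟨t + 1, by rw [pt_succ, ht, step_nxt]⟩

/-- the states which are adjacent to both clusters -/
theorem both_iff {m k : ℕ} {ω : Finset Edg} (hω : ω ⊆ bulk m k) (σ : St) :
    (InWired m k ω σ.1 ∧ InFree m k ω (face σ)) ↔ (σ ∈ Ob m k ω ∧ Rg m k (face σ)) := by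
  constructor
  · rintro ⟨h1, h2⟩
    refine ⟨?_, free_rg h2⟩
    obtain ⟨hv, hf, hpot, hC, hE⟩ := pot_of_inv (Op m k ω) (Ob m k ω) (ob_inv hω)
    have hreach : ∀ u w, Reach (Op m k ω) u w → hv u = hv w := by
      intro u w h
      induction h with
      | refl => rfl
      | tail _ hs ih =>
        obtain ⟨e, he, h | h⟩ := hs
        · rw [ih, ← h.1, ← h.2]; exact hC e he
        · rw [ih, ← h.1, ← h.2]; exact (hC e he).symm
    have hdreach : ∀ u w, DReach (Op m k ω)ᶜ u w → hf u = hf w := by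
      intro u w h
      induction h with
      | refl => rfl
      | tail _ hs ih =>
        obtain ⟨e, he, h | h⟩ := hs
        · rw [ih, ← h.1, ← h.2]; exact hE e he
        · rw [ih, ← h.1, ← h.2]; exact (hE e he).symm
    have e1 := hreach _ _ (inWired_iff.1 h1)
    have e2 := hdreach _ _ (free_op hω h2)
    have e3 := hdreach _ _ (free_op hω (free_side (m := m) (k := k) (f := ((m : ℤ), 0)) ω
      ⟨⟨by simp, by simp⟩, by simp, by simp⟩ (Or.inl rfl)))
    have hst : ((((m : ℤ), 0), .ne) : St) ∈ Ob m k ω := ⟨0, rfl⟩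
    have e0 := hpot (((m : ℤ), 0), .ne)
    rw [b2_of hst] at e0
    have e4 : face ((((m : ℤ), 0), .ne) : St) = ((m : ℤ), 0) := rfl
    rw [e4] at e0
    simp only at e0
    by_contra hcon
    have e5 := hpot σ
    rw [b2_not_of hcon, ← e1, ← e2, e3, e0] at e5
    exact absurd e5 (by decide)
  · rintro ⟨⟨t, rfl⟩, h2⟩
    refine ⟨inWired_iff.2 (pt_reach m k ω t), ?_⟩
    refine free_of ?_ h2
    have h3 := iter_dreach (Op m k ω) (((m : ℤ), 0), .ne) t
    have h4 := free_op hω (free_side (m := m) (k := k) (f := ((m : ℤ), 0)) ω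
      ⟨⟨by simp, by simp⟩, by simp, by simp⟩ (Or.inl rfl))
    exact h4.trans h3

/-- the state with a given vertex and a given face -/
def stOf (p : Vtx × Vtx) : St :=
  (p.1, if p.2.1 = p.1.1 then (if p.2.2 = p.1.2 then .ne else .se)
    else (if p.2.2 = p.1.2 then .nw else .sw))

theorem stOf_face (σ : St) : stOf (σ.1, face σ) = σ := by
  obtain ⟨⟨x, y⟩, q⟩ := σ
  cases q <;> simp [stOf]

theorem face_stOf {p : Vtx × Vtx} (h1 : p.2.1 = p.1.1 ∨ p.2.1 = p.1.1 - 1)
    (h2 : p.2.2 = p.1.2 ∨ p.2.2 = p.1.2 - 1) : face (stOf p) = p.2 := by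
  obtain ⟨⟨x, y⟩, ⟨a, b⟩⟩ := p
  simp only at h1 h2
  unfold stOf
  rcases h1 with rfl | rfl <;> rcases h2 with rfl | rfl <;> simp

theorem face_adj (σ : St) : ((face σ).1 = σ.1.1 ∨ (face σ).1 = σ.1.1 - 1) ∧
    ((face σ).2 = σ.1.2 ∨ (face σ).2 = σ.1.2 - 1) := by
  obtain ⟨⟨x, y⟩, q⟩ := σ
  cases q <;> simp

/-- **The interface is the part of the orbit with faces in the rectangle.** -/
theorem interface_eq {m k : ℕ} {ω : Finset Edg} (hω : ω ⊆ bulk m k) :
    Interface m k ω = {p | ∃ t < TT m k, p = ((pt m k ω t).1, face (pt m k ω t)) ∧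
      Rg m k (face (pt m k ω t))} := by
  ext p
  constructor
  · rintro ⟨h1, h2, h3, h4⟩
    have h5 := face_stOf h1 h2
    have h6 := (both_iff hω (stOf p)).1 ⟨h3, by rw [h5]; exact h4⟩
    obtain ⟨⟨t, ht⟩, h7⟩ := h6
    obtain ⟨s, hs, hs2⟩ := pt_small hω t
    refine ⟨s, hs, ?_, ?_⟩
    · rw [hs2, ht, h5]; rfl
    · rw [hs2, ht]; exact h7
  · rintro ⟨t, -, rfl, h⟩
    have h6 := (both_iff hω (pt m k ω t)).2 ⟨⟨t, rfl⟩, h⟩
    have h7 := face_adj (pt m k ω t)
    exact ⟨h7.1, h7.2, h6.1, h6.2⟩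

theorem xe_bulk_face {m k : ℕ} {σ : St} (h : xe σ ∈ bulk m k) : Rg m k (face σ) := by
  obtain ⟨⟨x, y⟩, q⟩ := σ
  rw [NW.mem_bulk] at h
  unfold Rg
  cases q <;> simp only [xe, Bool.false_eq_true, Bool.true_eq_false, false_and, true_and, false_or,
    or_false] at h <;> simp only [face_ne, face_nw, face_sw, face_se] <;> omega

theorem interface_fin {m k : ℕ} {ω : Finset Edg} (hω : ω ⊆ bulk m k) :
    (Interface m k ω).Finite := by
  classical
  refine Set.Finite.subset (Finset.finite_toSet ((Finset.range (TT m k)).image fun t =>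
    ((pt m k ω t).1, face (pt m k ω t)))) ?_
  rw [interface_eq hω]
  rintro p ⟨t, ht, rfl, -⟩
  rw [mem_coe, mem_image]
  exact ⟨t, mem_range.2 ht, rfl⟩

/-- the number of the examined edges is at most the length of the interface -/
theorem card_JJ (m k t : ℕ) (x : bulk m k → Bool) :
    (JJ m k t x).card ≤ H985IL.len m k (fo (bulk m k) x) := by
  classical
  have hω := fo_sub (bulk m k) x
  have hfin := interface_fin hω
  unfold H985IL.len
  rw [Set.ncard_eq_toFinset_card _ hfin, ← card_map ⟨Subtype.val, Subtype.val_injective⟩]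
  refine le_trans (card_le_card ?_) (card_image_le (f := fun p => xe (stOf p)))
  intro e he
  rw [mem_map] at he
  obtain ⟨i, hi, rfl⟩ := he
  obtain ⟨s, -, hs⟩ := mem_JJ.1 hi
  rw [mem_image]
  refine ⟨((pt m k (fo (bulk m k) x) s).1, face (pt m k (fo (bulk m k) x) s)), ?_, ?_⟩
  · rw [Set.Finite.mem_toFinset]
    have h1 : Rg m k (face (pt m k (fo (bulk m k) x) s)) := xe_bulk_face (by rw [hs]; exact i.2)
    have h6 := (both_iff hω (pt m k (fo (bulk m k) x) s)).2 ⟨⟨s, rfl⟩, h1⟩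
    have h7 := face_adj (pt m k (fo (bulk m k) x) s)
    exact ⟨h7.1, h7.2, h6.1, h6.2⟩
  · simp only [stOf_face]
    exact hs

theorem interface_same {m k : ℕ} {x x' : bulk m k → Bool}
    (h : ∀ i ∈ JJ m k (TT m k) x, x i = x' i) :
    Interface m k (fo (bulk m k) x') = Interface m k (fo (bulk m k) x) := by
  rw [interface_eq (fo_sub _ _), interface_eq (fo_sub _ _)]
  have h1 := pt_same h
  ext p
  constructor
  · rintro ⟨t, ht, h2, h3⟩
    rw [h1 t ht.le] at h2 h3
    exact ⟨t, ht, h2, h3⟩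
  · rintro ⟨t, ht, h2, h3⟩
    rw [← h1 t ht.le] at h2 h3
    exact ⟨t, ht, h2, h3⟩

/-- the weights of the bits -/
theorem rt_weight (m k : ℕ) {q : ℝ} (hq : 0 < q) :
    Rt (fun x : bulk m k → Bool => weight q m k (fo (bulk m k) x)) (NW.rr q) := by
  have h := NW.rto_fk m k hq
  refine ⟨h.one, fun x => h.pos _ (fo_sub _ _), ?_⟩
  intro x i
  have key : ∀ y : bulk m k → Bool, y i = false →
      fo (bulk m k) (Function.update y i true) = insert (i : Edg) (fo (bulk m k) y) ∧
      (i : Edg) ∉ fo (bulk m k) y := by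
    intro y hy
    refine ⟨?_, ?_⟩
    · ext e
      rw [mem_fo, mem_insert, mem_fo]
      constructor
      · rintro ⟨h1, h2⟩
        by_cases he : (⟨e, h1⟩ : bulk m k) = i
        · left; rw [← he]
        · right
          rw [Function.update_of_ne he] at h2
          exact ⟨h1, h2⟩
      · rintro (h1 | ⟨h1, h2⟩)
        · subst h1
          exact ⟨i.2, by simp⟩
        · refine ⟨h1, ?_⟩
          by_cases he : (⟨e, h1⟩ : bulk m k) = i
          · rw [he, Function.update_self]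
          · rw [Function.update_of_ne he]; exact h2
    · intro hc
      obtain ⟨h1, h2⟩ := mem_fo.1 hc
      have : (⟨(i : Edg), h1⟩ : bulk m k) = i := Subtype.ext rfl
      rw [this, hy] at h2
      exact absurd h2 (by decide)
  cases hx : x i
  · obtain ⟨h1, h2⟩ := key x hx
    show weight q m k (fo (bulk m k) (Function.update x i (!false))) ≤ _
    rw [Bool.not_false, h1]
    exact h.up _ (fo_sub _ _) _ i.2 h2
  · obtain ⟨h1, h2⟩ := key (Function.update x i false) (Function.update_self _ _ _)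
    rw [Function.update_idem] at h1
    have h3 : Function.update x i true = x := by rw [← hx, Function.update_eq_self]
    rw [h3] at h1
    show weight q m k (fo (bulk m k) (Function.update x i (!true))) ≤ _
    rw [Bool.not_true]
    have h4 := h.low _ (fo_sub (bulk m k) (Function.update x i false)) _ i.2 h2
    rw [← h1] at h4
    exact h4

open Classical in
theorem rcP_sum (q : ℝ) (m k : ℕ) (A : Finset Edg → Prop) :
    rcP q m k A = (∑ x : bulk m k → Bool, (if A (fo (bulk m k) x) then (1:ℝ) else 0) *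
      weight q m k (fo (bulk m k) x)) / ∑ x : bulk m k → Bool, weight q m k (fo (bulk m k) x) := by
  unfold rcP
  rw [sum_filter, sum_fo, sum_fo]
  congr 1
  refine sum_congr rfl fun x _ => ?_
  split_ifs <;> simp

open Classical in
theorem rcP_one_av (m k : ℕ) (A : Finset Edg → Prop) :
    rcP 1 m k A = DP.av (fun x : bulk m k → Bool => if A (fo (bulk m k) x) then (1:ℝ) else 0) := by
  have hw : ∀ ω, weight 1 m k ω = 1 := by
    intro ω
    unfold weight
    rw [Real.sqrt_one, one_pow, one_pow, one_mul]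
  rw [rcP_sum]
  simp only [hw, mul_one]
  unfold DP.av
  congr 1
  rw [sum_const, card_univ, Fintype.card_fun, Fintype.card_bool, nsmul_eq_mul]
  push_cast
  ring

theorem rcE_one_av (m k : ℕ) (f : Finset Edg → ℝ) :
    H985IL.rcE 1 m k f = DP.av (fun x : bulk m k → Bool => f (fo (bulk m k) x)) := by
  classical
  have hw : ∀ ω, weight 1 m k ω = 1 := by
    intro ω
    unfold weight
    rw [Real.sqrt_one, one_pow, one_pow, one_mul]
  unfold H985IL.rcE
  simp only [hw, one_mul]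
  rw [sum_fo, sum_fo]
  unfold DP.av
  congr 1
  rw [sum_const, card_univ, Fintype.card_fun, Fintype.card_bool, nsmul_eq_mul]
  push_cast
  ring

theorem small_q {q E C M : ℝ} (hq : 0 < q) (hq1 : |q - 1| ≤ 1/2) (hE0 : 0 ≤ E) (hE1 : E ≤ C * M)
    (hC : 0 < C) : 2 * Real.sqrt (-Real.log (4 * NW.rr q / (1 + NW.rr q) ^ 2) / 2 * E) ≤
      (2 * Real.sqrt C + 4) * |q - 1| * Real.sqrt M := by
  obtain ⟨c1, c2, c3, c4⟩ := NW.rr_close hq
  have hr1 : 1 ≤ NW.rr q := NW.rr_one hq
  generalize NW.rr q = r at c1 c2 c3 c4 hr1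
  have hr0 : 0 < 1 + r := by linarith
  have e3 : 4 * r / (1 + r) ^ 2 = 1 - (2 * (r / (1 + r)) - 1) ^ 2 := by
    field_simp
    ring
  generalize r / (1 + r) = θ at c1 c2 c3 c4 e3
  have h5 : 0 ≤ 2 * θ - 1 := by linarith
  have h6 : 2 * θ - 1 ≤ |q - 1| := by linarith
  have h7 : (2 * θ - 1) ^ 2 ≤ |q - 1| ^ 2 := pow_le_pow_left₀ h5 h6 2
  have h8 : (2 * θ - 1) ^ 2 ≤ 1/4 := by
    refine h7.trans ?_
    calc |q - 1| ^ 2 ≤ (1/2) ^ 2 := pow_le_pow_left₀ (abs_nonneg _) hq1 2
      _ = 1/4 := by norm_num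
  have h9 := DP.neg_log_le (sq_nonneg (2 * θ - 1)) h8
  have h10 : -Real.log (4 * r / (1 + r) ^ 2) / 2 * E ≤ |q - 1| ^ 2 * (C * M) := by
    rw [e3]
    have h11 : -Real.log (1 - (2 * θ - 1) ^ 2) / 2 ≤ |q - 1| ^ 2 := by
      have := sq_nonneg (|q - 1|)
      linarith
    exact mul_le_mul h11 hE1 hE0 (sq_nonneg _)
  refine (mul_le_mul_of_nonneg_left (Real.sqrt_le_sqrt h10) (by norm_num)).trans ?_
  rw [Real.sqrt_mul (sq_nonneg _), Real.sqrt_sq (abs_nonneg _), Real.sqrt_mul hC.le]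
  have h11 : 0 ≤ |q - 1| * Real.sqrt M := mul_nonneg (abs_nonneg _) (Real.sqrt_nonneg _)
  have h12 : (2 * Real.sqrt C + 4) * |q - 1| * Real.sqrt M = 2 * (|q - 1| * (Real.sqrt C * Real.sqrt M)) +
      4 * (|q - 1| * Real.sqrt M) := by ring
  rw [h12]
  linarith

/-- **The law of the interface for `q` close to `1`.** -/
theorem interface_law : ∃ C : ℝ, 0 < C ∧ ∀ (q : ℝ) (m k : ℕ), 0 < q → 1 ≤ m → 1 ≤ k →
    ∀ X : Set (Set (Vtx × Vtx)),
    |rcP q m k (fun ω => Interface m k ω ∈ X) - rcP 1 m k (fun ω => Interface m k ω ∈ X)| ≤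
      C * |q - 1| * Real.sqrt ((max m k : ℕ) * ((min m k : ℕ) : ℝ) ^ (3/4 : ℝ)) := by
  classical
  obtain ⟨C, hC, hlen⟩ := H985IL.len_upper H985T.st_A
  refine ⟨2 * Real.sqrt C + 4, by positivity, ?_⟩
  intro q m k hq hm hk X
  set M : ℝ := (max m k : ℕ) * ((min m k : ℕ) : ℝ) ^ (3/4 : ℝ) with hM
  have hM1 : 1 ≤ M := by
    have h1 : (1:ℝ) ≤ (max m k : ℕ) := by exact_mod_cast hm.trans (le_max_left _ _)
    have h2 : (1:ℝ) ≤ ((min m k : ℕ) : ℝ) := by exact_mod_cast le_min hm hk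
    have h3 : (1:ℝ) ≤ ((min m k : ℕ) : ℝ) ^ (3/4 : ℝ) := Real.one_le_rpow h2 (by norm_num)
    calc (1:ℝ) = 1 * 1 := by ring
      _ ≤ _ := mul_le_mul h1 h3 (by norm_num) (by linarith)
  have hsM : 1 ≤ Real.sqrt M := by rw [Real.one_le_sqrt]; exact hM1
  set Φ : (bulk m k → Bool) → ℝ := fun x => if Interface m k (fo (bulk m k) x) ∈ X then 1 else 0
    with hΦ
  have hΦ1 : ∀ x, |Φ x| ≤ 1 := by
    intro x
    rw [hΦ]
    simp only
    split_ifs <;> simp
  have hw := rt_weight m k hq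
  have key := tv_seq hw (seq_JJ m k) (TT m k) hΦ1 (fun x x' h => by
    rw [hΦ]
    simp only [interface_same h])
  have e1 : rcP q m k (fun ω => Interface m k ω ∈ X) =
      (∑ x, Φ x * weight q m k (fo (bulk m k) x)) / ∑ x : bulk m k → Bool,
        weight q m k (fo (bulk m k) x) := rcP_sum q m k _
  have e2 : rcP 1 m k (fun ω => Interface m k ω ∈ X) = DP.av Φ := rcP_one_av m k _
  rw [e1, e2]
  set E := DP.av (fun x : bulk m k → Bool => ((JJ m k (TT m k) x).card : ℝ)) with hE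
  have hE1 : E ≤ C * M := by
    have h1 : E ≤ H985IL.rcE 1 m k (fun ω => (H985IL.len m k ω : ℝ)) := by
      rw [rcE_one_av, hE]
      refine DP.av_mono fun x => ?_
      exact_mod_cast card_JJ m k (TT m k) x
    refine h1.trans ((hlen m k hm hk).trans (le_of_eq ?_))
    rw [hM]; ring
  have hE0 : 0 ≤ E := by
    have := DP.av_mono (f := fun _ : bulk m k → Bool => (0:ℝ))
      (g := fun x => ((JJ m k (TT m k) x).card : ℝ)) fun x => Nat.cast_nonneg _
    rwa [DP.av_const] at this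
  rcases le_or_gt |q - 1| (1/2) with hq1 | hq1
  · exact key.trans (small_q hq hq1 hE0 hE1 hC)
  · have h12 : |(∑ x, Φ x * weight q m k (fo (bulk m k) x)) / ∑ x : bulk m k → Bool,
        weight q m k (fo (bulk m k) x)| ≤ 1 := by
      have hpos : 0 < ∑ x : bulk m k → Bool, weight q m k (fo (bulk m k) x) :=
        sum_pos (fun x _ => hw.pos x) ⟨fun _ => false, mem_univ _⟩
      rw [abs_div, abs_of_pos hpos, div_le_one hpos]
      refine (abs_sum_le_sum_abs _ _).trans (sum_le_sum fun x _ => ?_)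
      rw [abs_mul, abs_of_pos (hw.pos x)]
      exact mul_le_of_le_one_left (hw.pos x).le (hΦ1 x)
    have h13 : |DP.av Φ| ≤ 1 := by
      rw [abs_le]
      constructor
      · have := DP.av_mono (f := fun _ : bulk m k → Bool => (-1:ℝ)) (g := Φ)
          fun x => (abs_le.1 (hΦ1 x)).1
        rwa [DP.av_const] at this
      · have := DP.av_mono (f := Φ) (g := fun _ : bulk m k → Bool => (1:ℝ))
          fun x => (abs_le.1 (hΦ1 x)).2
        rwa [DP.av_const] at this
    have h14 : 2 ≤ (2 * Real.sqrt C + 4) * |q - 1| * Real.sqrt M := by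
      have h15 : 2 ≤ (2 * Real.sqrt C + 4) * |q - 1| := by nlinarith [Real.sqrt_nonneg C]
      nlinarith
    refine le_trans ?_ h14
    rw [abs_le] at h12 h13 ⊢
    constructor <;> linarith [h12.1, h12.2, h13.1, h13.2]

end Pool.Agent.X136.IT
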