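import Pool.Agent.X136.IT.Seq
import Pool.Agent.X136.NW.Rc
import Pool.Agent.X136.QE.Det
import Pool.Agent.H985R3.IL.IL0

set_option autoImplicit false

/-!
# The exploration of the interface of the rectangle
-/

namespace Pool.Agent.X136.IT

open Finset H974 H984P H985BT
open Pool.Agent.X136.NW (bulk_disj)
open Pool.Agent.X136.QE (xe step_xe iter_reach iter_dreach)

/-- the open edges of a configuration of bits -/
noncomputable def fo (S : Finset Edg) (x : S → Bool) : Finset Edg :=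
  (univ.filter fun i : S => x i = true).map ⟨Subtype.val, Subtype.val_injective⟩

theorem mem_fo {S : Finset Edg} {x : S → Bool} {e : Edg} :
    e ∈ fo S x ↔ ∃ h : e ∈ S, x ⟨e, h⟩ = true := by
  unfold fo
  rw [mem_map]
  constructor
  · rintro ⟨i, hi, rfl⟩
    rw [mem_filter] at hi
    exact ⟨i.2, hi.2⟩
  · rintro ⟨h, hx⟩
    exact ⟨⟨e, h⟩, by rw [mem_filter]; exact ⟨mem_univ _, hx⟩, rfl⟩

theorem fo_sub (S : Finset Edg) (x : S → Bool) : fo S x ⊆ S := by
  intro e he
  obtain ⟨h, -⟩ := mem_fo.1 he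
  exact h

open Classical in
theorem sum_fo (S : Finset Edg) (g : Finset Edg → ℝ) :
    ∑ F ∈ S.powerset, g F = ∑ x : S → Bool, g (fo S x) := by
  have h1 : ∀ F, F ⊆ S → fo S (fun i => decide ((i : Edg) ∈ F)) = F := by
    intro F hF
    ext e
    rw [mem_fo]
    constructor
    · rintro ⟨h, hx⟩
      simpa using hx
    · intro he
      exact ⟨hF he, by simpa using he⟩
  refine sum_bij' (fun F _ => fun i : S => decide ((i : Edg) ∈ F)) (fun x _ => fo S x) ?_ ?_ ?_ ?_ ?_
  · intro F _; exact mem_univ _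
  · intro x _; rw [mem_powerset]; exact fo_sub S x
  · intro F hF; exact h1 F (mem_powerset.1 hF)
  · intro x _
    funext i
    by_cases h : x i = true
    · rw [h]
      simp only [decide_eq_true_eq]
      exact mem_fo.2 ⟨i.2, h⟩
    · rw [Bool.not_eq_true] at h
      rw [h]
      simp only [decide_eq_false_iff_not]
      rintro hc
      obtain ⟨h2, h3⟩ := mem_fo.1 hc
      rw [h] at h3
      exact absurd h3 (by decide)
  · intro F hF
    rw [h1 F (mem_powerset.1 hF)]

/-- all the open edges -/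
def Op (m k : ℕ) (ω : Finset Edg) : Set Edg := ↑ω ∪ ↑(wired m k)

/-- the exploration, started at the lower right corner -/
noncomputable def pt (m k : ℕ) (ω : Finset Edg) (t : ℕ) : St :=
  (H984H.step (Op m k ω))^[t] (((m : ℤ), 0), .ne)

theorem pt_succ (m k : ℕ) (ω : Finset Edg) (t : ℕ) :
    pt m k ω (t + 1) = H984H.step (Op m k ω) (pt m k ω t) :=
  Function.iterate_succ_apply' _ _ _

open Classical in
/-- the bits examined in the first `t` steps -/
noncomputable def JJ (m k : ℕ) (t : ℕ) (x : bulk m k → Bool) : Finset (bulk m k) :=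
  univ.filter fun i => ∃ s < t, xe (pt m k (fo (bulk m k) x) s) = (i : Edg)

theorem mem_JJ {m k t : ℕ} {x : bulk m k → Bool} {i : bulk m k} :
    i ∈ JJ m k t x ↔ ∃ s < t, xe (pt m k (fo (bulk m k) x) s) = (i : Edg) := by
  classical
  unfold JJ
  simp only [mem_filter, mem_univ, true_and]

theorem pt_same {m k t : ℕ} {x x' : bulk m k → Bool} (h : ∀ i ∈ JJ m k t x, x i = x' i) :
    ∀ s ≤ t, pt m k (fo (bulk m k) x') s = pt m k (fo (bulk m k) x) s := by
  intro s
  induction s with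
  | zero => intro _; rfl
  | succ s ih =>
    intro hs
    rw [pt_succ, pt_succ, ih (by omega)]
    apply step_xe
    set e := xe (pt m k (fo (bulk m k) x) s) with he
    unfold Op
    simp only [Set.mem_union, mem_coe]
    by_cases hb : e ∈ bulk m k
    · have h1 : (⟨e, hb⟩ : bulk m k) ∈ JJ m k t x := mem_JJ.2 ⟨s, by omega, rfl⟩
      have h2 := h _ h1
      have h3 : e ∈ fo (bulk m k) x' ↔ e ∈ fo (bulk m k) x := by
        rw [mem_fo, mem_fo]
        constructor
        · rintro ⟨h4, h5⟩; exact ⟨h4, by rw [h2]; exact h5⟩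
        · rintro ⟨h4, h5⟩; exact ⟨h4, by rw [← h2]; exact h5⟩
      rw [h3]
    · have h3 : ∀ y, e ∉ fo (bulk m k) y := fun y hy => hb (fo_sub _ _ hy)
      simp only [h3, false_or]

theorem seq_JJ (m k : ℕ) : Seq (JJ m k) := by
  classical
  refine ⟨?_, ?_, ?_⟩
  · intro x
    ext i
    rw [mem_JJ]
    simp
  · intro t x
    set e := xe (pt m k (fo (bulk m k) x) t) with he
    by_cases h : ∃ hb : e ∈ bulk m k, (⟨e, hb⟩ : bulk m k) ∉ JJ m k t x
    · obtain ⟨hb, h⟩ := h
      right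
      refine ⟨_, h, ?_⟩
      ext i
      rw [mem_insert, mem_JJ, mem_JJ]
      constructor
      · rintro ⟨s, hs, hi⟩
        rcases Nat.lt_succ_iff_lt_or_eq.1 hs with h1 | h1
        · exact Or.inr ⟨s, h1, hi⟩
        · left
          subst h1
          exact Subtype.ext hi.symm
      · rintro (h1 | ⟨s, hs, hi⟩)
        · exact ⟨t, by omega, by rw [h1]⟩
        · exact ⟨s, by omega, hi⟩
    · left
      push Not at h
      ext i
      rw [mem_JJ, mem_JJ]
      constructor
      · rintro ⟨s, hs, hi⟩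
        rcases Nat.lt_succ_iff_lt_or_eq.1 hs with h1 | h1
        · exact ⟨s, h1, hi⟩
        · subst h1
          have hb : e ∈ bulk m k := by rw [he, hi]; exact i.2
          have h2 := mem_JJ.1 (h hb)
          obtain ⟨s', hs', h3⟩ := h2
          exact ⟨s', hs', by rw [h3]; exact hi⟩
      · rintro ⟨s, hs, hi⟩
        exact ⟨s, by omega, hi⟩
  · intro t x x' h
    have h1 := pt_same h
    ext i
    rw [mem_JJ, mem_JJ]
    constructor
    · rintro ⟨s, hs, hi⟩
      exact ⟨s, hs, by rw [← h1 s (by omega)]; exact hi⟩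
    · rintro ⟨s, hs, hi⟩
      exact ⟨s, hs, by rw [h1 s (by omega)]; exact hi⟩

/-- faces of the rectangle -/
def Rg (m k : ℕ) (f : Vtx) : Prop := (0 ≤ f.1 ∧ f.1 ≤ m) ∧ (0 ≤ f.2 ∧ f.2 ≤ k)

theorem mem_cut' {m k : ℕ} {e : Edg} : e ∈ cut m k ↔
    (e.2.2 = true ∧ e.1 = m ∧ 1 ≤ e.2.1 ∧ e.2.1 ≤ k) ∨
      (e.2.2 = false ∧ e.2.1 = k ∧ 1 ≤ e.1 ∧ e.1 ≤ m) := by
  obtain ⟨x, y, b⟩ := e
  unfold cut
  simp only [mem_union, mem_image, mem_Icc, Prod.mk.injEq]
  constructor
  · rintro (⟨z, h, rfl, rfl, rfl⟩ | ⟨z, h, rfl, rfl, rfl⟩)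
    · exact Or.inl ⟨rfl, rfl, h⟩
    · exact Or.inr ⟨rfl, rfl, h⟩
  · rintro (⟨rfl, rfl, h⟩ | ⟨rfl, rfl, h⟩)
    · exact Or.inl ⟨y, h, rfl, rfl, rfl⟩
    · exact Or.inr ⟨x, h, rfl, rfl, rfl⟩

theorem free_col {m k : ℕ} (ω : Finset Edg) (n : ℕ) (hn : n ≤ k) :
    InFree m k ω ((m : ℤ), (k : ℤ) - n) := by
  induction n with
  | zero =>
    have e : (k : ℤ) - ((0 : ℕ) : ℤ) = k := by simp
    have e' : (m : ℤ) - ((0 : ℕ) : ℤ) = m := by simp
    first
      | rw [e]; exact DReach.refl _ _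
      | rw [e']; exact DReach.refl _ _
  | succ n ih =>
    refine (ih (by omega)).trans (DAdj.reach ⟨((m : ℤ), (k : ℤ) - n, true), Or.inr ?_, Or.inr ⟨?_, ?_⟩⟩)
    · rw [mem_coe, mem_cut']
      left
      refine ⟨rfl, rfl, ?_, ?_⟩ <;> simp only <;> omega
    · rw [dsrc_true]
      push_cast
      congr 1
      ring
    · rfl

theorem free_row {m k : ℕ} (ω : Finset Edg) (n : ℕ) (hn : n ≤ m) :
    InFree m k ω ((m : ℤ) - n, (k : ℤ)) := by
  induction n with
  | zero =>
    have e : (k : ℤ) - ((0 : ℕ) : ℤ) = k := by simp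
    have e' : (m : ℤ) - ((0 : ℕ) : ℤ) = m := by simp
    first
      | rw [e]; exact DReach.refl _ _
      | rw [e']; exact DReach.refl _ _
  | succ n ih =>
    refine (ih (by omega)).trans (DAdj.reach ⟨((m : ℤ) - n, (k : ℤ), false), Or.inr ?_, Or.inr ⟨?_, ?_⟩⟩)
    · rw [mem_coe, mem_cut']
      right
      refine ⟨rfl, rfl, ?_, ?_⟩ <;> simp only <;> omega
    · rw [dsrc_false]
      push_cast
      congr 1
      ring
    · rfl

theorem free_side {m k : ℕ} (ω : Finset Edg) {f : Vtx} (hf : Rg m k f) (h : f.1 = m ∨ f.2 = k) :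
    InFree m k ω f := by
  obtain ⟨⟨h1, h2⟩, h3, h4⟩ := hf
  rcases h with h | h
  · obtain ⟨n, hn⟩ := Int.eq_ofNat_of_zero_le (show 0 ≤ (k : ℤ) - f.2 by omega)
    have := free_col (m := m) (k := k) ω n (by omega)
    have e : f = ((m : ℤ), (k : ℤ) - n) := Prod.ext h (by simp only; omega)
    rw [e]; exact this
  · obtain ⟨n, hn⟩ := Int.eq_ofNat_of_zero_le (show 0 ≤ (m : ℤ) - f.1 by omega)
    have := free_row (m := m) (k := k) ω n (by omega)
    have e : f = ((m : ℤ) - n, (k : ℤ)) := Prod.ext (by simp only; omega) h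
    rw [e]; exact this

/-- a face of the rectangle which is joined to the corner in the whole plane is joined to it in the
rectangle -/
theorem free_of {m k : ℕ} {ω : Finset Edg} {f : Vtx}
    (h : DReach (Op m k ω)ᶜ ((m : ℤ), (k : ℤ)) f) : Rg m k f → InFree m k ω f := by
  induction h with
  | refl => intro _; exact DReach.refl _ _
  | @tail b c _ hs ih =>
    intro hc
    obtain ⟨e, he, hec⟩ := hs
    have he1 : e ∉ ω := fun h => he (Or.inl h)
    have he2 : e ∉ wired m k := fun h => he (Or.inr h)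
    by_cases hb : Rg m k b
    · refine (ih hb).trans (DAdj.reach ⟨e, ?_, hec⟩)
      obtain ⟨⟨b1, b2⟩, b3, b4⟩ := hb
      obtain ⟨⟨c1, c2⟩, c3, c4⟩ := hc
      obtain ⟨x, y, t⟩ := e
      simp only [Set.mem_union, mem_coe, mem_sdiff]
      cases t
      · rw [dsrc_false, dtgt_mk] at hec
        have h5 : (1 ≤ x ∧ x ≤ m) ∧ 0 ≤ y ∧ y ≤ k := by
          rcases hec with ⟨h1, h2⟩ | ⟨h1, h2⟩
          · rw [← h1] at b1 b3; rw [← h2] at c2 c4; simp only at *; omega
          · rw [← h1] at c1 c3; rw [← h2] at b2 b4; simp only at *; omega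
        by_cases hk : y = k
        · right
          rw [mem_cut']
          right
          exact ⟨rfl, hk, h5.1⟩
        · left
          refine ⟨?_, he1⟩
          rw [NW.mem_bulk]
          right
          exact ⟨rfl, h5.1, h5.2.1, by simp only; omega⟩
      · rw [dsrc_true, dtgt_mk] at hec
        have h5 : (0 ≤ x ∧ x ≤ m) ∧ 1 ≤ y ∧ y ≤ k := by
          rcases hec with ⟨h1, h2⟩ | ⟨h1, h2⟩
          · rw [← h1] at b1 b3; rw [← h2] at c2 c4; simp only at *; omega
          · rw [← h1] at c1 c3; rw [← h2] at b2 b4; simp only at *; omega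
        by_cases hm : x = m
        · right
          rw [mem_cut']
          left
          exact ⟨rfl, hm, h5.2⟩
        · left
          refine ⟨?_, he1⟩
          rw [NW.mem_bulk]
          left
          exact ⟨rfl, ⟨h5.1.1, by simp only; omega⟩, h5.2⟩
    · apply free_side ω hc
      obtain ⟨⟨c1, c2⟩, c3, c4⟩ := hc
      obtain ⟨x, y, t⟩ := e
      rw [NW.mem_wired] at he2
      unfold Rg at hb
      cases t
      · rw [dsrc_false, dtgt_mk] at hec
        simp only [Bool.false_eq_true, false_and, true_and, false_or] at he2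
        rcases hec with ⟨h1, h2⟩ | ⟨h1, h2⟩
        · rw [← h1] at hb; rw [← h2] at c1 c2 c3 c4 ⊢; simp only at *; omega
        · rw [← h1] at c1 c2 c3 c4 ⊢; rw [← h2] at hb; simp only at *; omega
      · rw [dsrc_true, dtgt_mk] at hec
        simp only [Bool.true_eq_false, false_and, true_and, or_false] at he2
        rcases hec with ⟨h1, h2⟩ | ⟨h1, h2⟩
        · rw [← h1] at hb; rw [← h2] at c1 c2 c3 c4 ⊢; simp only at *; omega
        · rw [← h1] at c1 c2 c3 c4 ⊢; rw [← h2] at hb; simp only at *; omega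

theorem free_rg {m k : ℕ} {ω : Finset Edg} {f : Vtx} (h : InFree m k ω f) : Rg m k f := by
  unfold InFree at h
  induction h with
  | refl => exact ⟨⟨by simp, by simp⟩, by simp, by simp⟩
  | @tail b c _ hs _ =>
    obtain ⟨e, he, hec⟩ := hs
    have h5 : (e.2.2 = true ∧ (0 ≤ e.1 ∧ e.1 ≤ m) ∧ 1 ≤ e.2.1 ∧ e.2.1 ≤ k) ∨
        (e.2.2 = false ∧ (1 ≤ e.1 ∧ e.1 ≤ m) ∧ 0 ≤ e.2.1 ∧ e.2.1 ≤ k) := by
      rcases he with he | he
      · rw [mem_coe, mem_sdiff, NW.mem_bulk] at he
        rcases he.1 with ⟨a, b, c⟩ | ⟨a, b, c⟩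
        · left; exact ⟨a, ⟨b.1, b.2.le⟩, c⟩
        · right; exact ⟨a, b, c.1, c.2.le⟩
      · rw [mem_coe, mem_cut'] at he
        rcases he with ⟨a, b, c⟩ | ⟨a, b, c⟩
        · left; exact ⟨a, by omega, c⟩
        · right; exact ⟨a, c, by omega⟩
    obtain ⟨x, y, t⟩ := e
    unfold Rg
    cases t
    · rw [dsrc_false, dtgt_mk] at hec
      simp only [Bool.false_eq_true, false_and, true_and, false_or] at h5
      rcases hec with ⟨-, h2⟩ | ⟨h2, -⟩ <;>
      · rw [← h2]; simp only; omega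
    · rw [dsrc_true, dtgt_mk] at hec
      simp only [Bool.true_eq_false, false_and, true_and, or_false] at h5
      rcases hec with ⟨-, h2⟩ | ⟨h2, -⟩ <;>
      · rw [← h2]; simp only; omega

theorem free_op {m k : ℕ} {ω : Finset Edg} (hω : ω ⊆ bulk m k) {f : Vtx} (h : InFree m k ω f) :
    DReach (Op m k ω)ᶜ ((m : ℤ), (k : ℤ)) f := by
  refine DReach.mono ?_ h
  intro e he hc
  have hd := Finset.disjoint_left.1 (bulk_disj m k)
  rcases he with he | he
  · rw [mem_coe, mem_sdiff] at he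
    rcases hc with hc | hc
    · exact he.2 hc
    · exact hd he.1 hc
  · rw [mem_coe, mem_cut'] at he
    rcases hc with hc | hc
    · have := hω hc
      rw [NW.mem_bulk] at this
      rcases he with ⟨a, b, c⟩ | ⟨a, b, c⟩ <;> rcases this with ⟨a', b', c'⟩ | ⟨a', b', c'⟩
      · omega
      · rw [a] at a'; exact absurd a' (by simp)
      · rw [a] at a'; exact absurd a' (by simp)
      · omega
    · rw [mem_coe, NW.mem_wired] at hc
      rcases he with ⟨a, b, c⟩ | ⟨a, b, c⟩ <;> rcases hc with ⟨a', b', c'⟩ | ⟨a', b', c'⟩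
      · omega
      · rw [a] at a'; exact absurd a' (by simp)
      · rw [a] at a'; exact absurd a' (by simp)
      · omega

end Pool.Agent.X136.IT
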