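import Pool.Agent.X136.DP.Tv

set_option autoImplicit false

/-!
# Total variation for sequentially revealed bits, for weights with bounded ratios

The weights of two configurations which differ at one bit have a ratio of at most `r`. The bits are
revealed one by one, the next one being chosen according to the revealed ones. The law of the
revealed bits is compared with the one for fair bits.
-/

namespace Pool.Agent.X136.IT

open Finset Pool.Agent.X136.QC Pool.Agent.X136.DP

section

variable {ι : Type*} [Fintype ι] [DecidableEq ι]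

/-- positive weights, the ratios of the weights of neighbours are at most `r` -/
structure Rt (w : (ι → Bool) → ℝ) (r : ℝ) : Prop where
  one : 1 ≤ r
  pos : ∀ ω, 0 < w ω
  flip : ∀ ω i, w (Function.update ω i (!ω i)) ≤ r * w ω

/-- sequentially revealed sets -/
structure Seq (J : ℕ → (ι → Bool) → Finset ι) : Prop where
  zero : ∀ ω, J 0 ω = ∅
  step : ∀ t ω, J (t + 1) ω = J t ω ∨ ∃ i ∉ J t ω, J (t + 1) ω = insert i (J t ω)
  pred : ∀ t ω ω', (∀ i ∈ J t ω, ω i = ω' i) → J (t + 1) ω' = J (t + 1) ω

theorem Seq.sub {J : ℕ → (ι → Bool) → Finset ι} (h : Seq J) (t : ℕ) (ω : ι → Bool) :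
    J t ω ⊆ J (t + 1) ω := by
  rcases h.step t ω with h1 | ⟨i, -, h1⟩
  · rw [h1]
  · rw [h1]; exact subset_insert _ _

theorem Seq.stop {J : ℕ → (ι → Bool) → Finset ι} (h : Seq J) (t : ℕ) : Stop (J t) := by
  cases t with
  | zero =>
    intro ω ω' _
    rw [h.zero, h.zero]
  | succ t =>
    intro ω ω' hω
    exact h.pred t ω ω' fun i hi => hω i (h.sub t ω hi)

/-- the mean of a function is the mean of its averages over one bit -/
theorem sum_split (i : ι) (b : Bool) (f : (ι → Bool) → ℝ) :
    ∑ η, (f (Function.update η i b) + f (Function.update η i (!b))) = 2 * ∑ η, f η := by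
  have h1 : ∀ c : Bool, ∑ η : ι → Bool, f (Function.update η i c) =
      2 * ∑ η ∈ univ.filter (fun η : ι → Bool => η i = c), f η := by
    intro c
    have h2 : ∑ η : ι → Bool, f (Function.update η i c) =
        ∑ η ∈ univ.filter (fun η : ι → Bool => η i = c), f (Function.update η i c) +
        ∑ η ∈ univ.filter (fun η : ι → Bool => ¬ η i = c), f (Function.update η i c) :=
      (sum_filter_add_sum_filter_not _ _ _).symm
    have h3 : ∑ η ∈ univ.filter (fun η : ι → Bool => η i = c), f (Function.update η i c) =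
        ∑ η ∈ univ.filter (fun η : ι → Bool => η i = c), f η := by
      refine sum_congr rfl fun η hη => ?_
      rw [mem_filter] at hη
      rw [← hη.2, Function.update_eq_self]
    have h4 : ∑ η ∈ univ.filter (fun η : ι → Bool => ¬ η i = c), f (Function.update η i c) =
        ∑ η ∈ univ.filter (fun η : ι → Bool => η i = c), f η := by
      refine sum_bij' (fun η _ => Function.update η i c) (fun η _ => Function.update η i (!c))
        ?_ ?_ ?_ ?_ ?_
      · intro η _
        rw [mem_filter]
        exact ⟨mem_univ _, Function.update_self _ _ _⟩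
      · intro η _
        rw [mem_filter, Function.update_self]
        exact ⟨mem_univ _, by cases c <;> simp⟩
      · intro η hη
        rw [mem_filter] at hη
        have : (!c) = η i := by
          have := hη.2
          cases h : η i <;> cases c <;> simp_all
        rw [Function.update_idem, this, Function.update_eq_self]
      · intro η hη
        rw [mem_filter] at hη
        rw [Function.update_idem, ← hη.2, Function.update_eq_self]
      · intro η _
        rfl
    rw [h2, h3, h4, two_mul]
  rw [sum_add_distrib, h1 b, h1 (!b), ← mul_add]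
  congr 1
  have h5 : univ.filter (fun η : ι → Bool => η i = !b) = univ.filter (fun η : ι → Bool => ¬ η i = b) := by
    ext η
    simp only [mem_filter, mem_univ, true_and]
    cases h : η i <;> cases b <;> simp
  rw [h5]
  exact sum_filter_add_sum_filter_not _ _ _

/-- the elementary inequality -/
theorem log_pair {r a b : ℝ} (hr : 1 ≤ r) (ha : 0 < a) (hb : 0 < b) (h1 : b ≤ r * a)
    (h2 : a ≤ r * b) :
    2 * Real.log ((a + b) / 2) + Real.log (4 * r / (1 + r) ^ 2) ≤ Real.log a + Real.log b := by
  have hr0 : 0 < r := by linarith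
  rw [← Real.log_mul ha.ne' hb.ne', ← Real.log_rpow (by positivity), ← Real.log_mul (by positivity)
    (by positivity)]
  refine Real.log_le_log (by positivity) ?_
  rw [show ((a + b) / 2) ^ (2:ℝ) = ((a + b) / 2) ^ 2 by
    rw [← Real.rpow_natCast]; norm_num]
  rw [mul_div_assoc', div_le_iff₀ (by positivity)]
  nlinarith [mul_nonneg (sub_nonneg.2 h1) (sub_nonneg.2 h2)]

/-- one step -/
theorem log_step {w : (ι → Bool) → ℝ} {r : ℝ} (hw : Rt w r)
    {J : ℕ → (ι → Bool) → Finset ι} (hJ : Seq J) (t : ℕ) :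
    ∑ ω, Real.log (PP (J t) w ω) + Real.log (4 * r / (1 + r) ^ 2) / 2 *
      (∑ ω, (((J (t + 1) ω).card : ℝ) - (J t ω).card)) ≤ ∑ ω, Real.log (PP (J (t + 1)) w ω) := by
  have hr0 : 0 < r := by linarith [hw.one]
  set T : (ι → Bool) → (ι → Bool) := fun ω i => if i ∈ J (t + 1) ω \ J t ω then !ω i else ω i with hT
  have hag : ∀ ω, ∀ i ∈ J t ω, ω i = T ω i := by
    intro ω i hi
    rw [hT]
    simp only
    rw [if_neg (by simp [hi])]
  have hT1 : ∀ ω, J t (T ω) = J t ω := fun ω => hJ.stop t ω _ (hag ω)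
  have hT2 : ∀ ω, J (t + 1) (T ω) = J (t + 1) ω := fun ω => hJ.pred t ω _ (hag ω)
  have hTT : Function.Involutive T := by
    intro ω
    funext i
    have e : T (T ω) i = if i ∈ J (t + 1) ω \ J t ω then !T ω i else T ω i := by
      show (if i ∈ J (t + 1) (T ω) \ J t (T ω) then !T ω i else T ω i) = _
      rw [hT1, hT2]
    rw [e]
    by_cases h : i ∈ J (t + 1) ω \ J t ω
    · rw [if_pos h]
      show (!(if i ∈ J (t + 1) ω \ J t ω then !ω i else ω i)) = ω i
      rw [if_pos h, Bool.not_not]
    · rw [if_neg h]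
      show (if i ∈ J (t + 1) ω \ J t ω then !ω i else ω i) = ω i
      rw [if_neg h]
  have hPpos : ∀ s ω, 0 < PP (J s) w ω := fun s ω =>
    sum_pos (fun η _ => hw.pos _) ⟨fun _ => false, mem_univ _⟩
  have hsumT : ∀ f : (ι → Bool) → ℝ, ∑ ω, f (T ω) = ∑ ω, f ω := fun f =>
    Equiv.sum_comp hTT.toPerm f
  -- the pairs
  have key : ∀ ω, 2 * Real.log (PP (J t) w ω) + Real.log (4 * r / (1 + r) ^ 2) *
      (((J (t + 1) ω).card : ℝ) - (J t ω).card) ≤
      Real.log (PP (J (t + 1)) w ω) + Real.log (PP (J (t + 1)) w (T ω)) := by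
    intro ω
    rcases hJ.step t ω with h | ⟨i, hi, h⟩
    · have e1 : T ω = ω := by
        funext j
        show (if j ∈ J (t + 1) ω \ J t ω then !ω j else ω j) = ω j
        rw [if_neg (by rw [h]; simp)]
      have e2 : PP (J (t + 1)) w ω = PP (J t) w ω := by unfold PP; rw [h]
      rw [e1, e2, h]
      linarith
    · have e0 : J (t + 1) ω \ J t ω = {i} := by
        rw [h]
        ext j
        simp only [mem_sdiff, mem_insert, mem_singleton]
        constructor
        · rintro ⟨h1 | h1, h2⟩
          · exact h1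
          · exact absurd h1 h2
        · rintro rfl
          exact ⟨Or.inl rfl, hi⟩
      have e1 : ∀ η, mix (J (t + 1) ω) ω η = mix (J t ω) ω (Function.update η i (ω i)) := by
        intro η
        funext j
        unfold mix
        rw [h]
        by_cases hj : j = i
        · subst hj
          simp [hi]
        · simp [hj]
      have e2 : ∀ η, mix (J (t + 1) (T ω)) (T ω) η =
          mix (J t ω) ω (Function.update η i (!ω i)) := by
        intro η
        funext j
        rw [hT2]
        unfold mix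
        rw [h]
        by_cases hj : j = i
        · subst hj
          have : T ω j = !ω j := by
            show (if j ∈ J (t + 1) ω \ J t ω then !ω j else ω j) = _
            rw [e0, if_pos (mem_singleton_self _)]
          simp [hi, this]
        · have : T ω j = ω j := by
            show (if j ∈ J (t + 1) ω \ J t ω then !ω j else ω j) = _
            rw [e0, if_neg (by simp [hj])]
          simp [hj, this]
      have e3 : PP (J t) w ω = (PP (J (t + 1)) w ω + PP (J (t + 1)) w (T ω)) / 2 := by
        unfold PP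
        rw [← sum_add_distrib]
        have := sum_split i (ω i) (fun η => w (mix (J t ω) ω η))
        simp only [e1, e2]
        rw [this]
        ring
      have e4 : ∀ η, mix (J (t + 1) (T ω)) (T ω) η =
          Function.update (mix (J (t + 1) ω) ω η) i (!(mix (J (t + 1) ω) ω η i)) := by
        intro η
        rw [e2]
        funext j
        by_cases hj : j = i
        · subst hj
          rw [Function.update_self]
          unfold mix
          rw [h]
          simp [hi]
        · rw [Function.update_of_ne hj, e1]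
          unfold mix
          simp [hj]
      have e5 : ∀ η, mix (J (t + 1) ω) ω η = Function.update (mix (J (t + 1) (T ω)) (T ω) η) i
          (!(mix (J (t + 1) (T ω)) (T ω) η i)) := by
        intro η
        rw [e4, Function.update_self, Bool.not_not, Function.update_idem, Function.update_eq_self]
      have f1 : PP (J (t + 1)) w (T ω) ≤ r * PP (J (t + 1)) w ω := by
        unfold PP
        rw [mul_sum]
        refine sum_le_sum fun η _ => ?_
        rw [e4]
        exact hw.flip _ i
      have f2 : PP (J (t + 1)) w ω ≤ r * PP (J (t + 1)) w (T ω) := by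
        unfold PP
        rw [mul_sum]
        refine sum_le_sum fun η _ => ?_
        nth_rewrite 1 [e5]
        exact hw.flip _ i
      have f3 := log_pair hw.one (hPpos (t + 1) ω) (hPpos (t + 1) (T ω)) f1 f2
      rw [← e3] at f3
      have f4 : (((J (t + 1) ω).card : ℝ) - (J t ω).card) = 1 := by
        rw [h, card_insert_of_notMem hi]
        push_cast
        ring
      rw [f4, mul_one]
      exact f3
  have h1 := sum_le_sum fun ω (_ : ω ∈ (univ : Finset (ι → Bool))) => key ω
  rw [sum_add_distrib, sum_add_distrib, ← mul_sum, ← mul_sum, hsumT (fun ω =>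
    Real.log (PP (J (t + 1)) w ω))] at h1
  linarith

theorem log_sum {w : (ι → Bool) → ℝ} {r : ℝ} (hw : Rt w r)
    {J : ℕ → (ι → Bool) → Finset ι} (hJ : Seq J) (t : ℕ) :
    (2:ℝ) ^ Fintype.card ι * Real.log (∑ ω, w ω) + Real.log (4 * r / (1 + r) ^ 2) / 2 *
      (∑ ω, ((J t ω).card : ℝ)) ≤ ∑ ω, Real.log (PP (J t) w ω) := by
  induction t with
  | zero =>
    have h1 : ∀ ω, PP (J 0) w ω = ∑ η, w η := by
      intro ω
      unfold PP
      refine sum_congr rfl fun η _ => ?_
      rw [hJ.zero]
      congr 1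
    simp only [h1, hJ.zero, card_empty, Nat.cast_zero, sum_const_zero, mul_zero, add_zero]
    rw [sum_const, card_univ, Fintype.card_fun, Fintype.card_bool, nsmul_eq_mul]
    push_cast
    exact le_rfl
  | succ t ih =>
    have h1 := log_step hw hJ t
    rw [sum_sub_distrib] at h1
    linarith

/-- comparison from a bound of the mean logarithm of a likelihood -/
theorem tv_of_log {L Φ : (ι → Bool) → ℝ} {x K : ℝ} (hL : ∀ ω, 0 < L ω) (hL1 : av L = 1)
    (hΦ1 : ∀ ω, |Φ ω| ≤ 1) (hx : av (fun ω => Φ ω * L ω) = x)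
    (hK : -K ≤ av (fun ω => Real.log (L ω))) : |x - av Φ| ≤ 2 * Real.sqrt K := by
  set a := av (fun ω => Real.sqrt (L ω)) with ha
  have ha1 : Real.exp (-(1/2) * K) ≤ a := by
    have h1 := exp_av_le (fun ω => 1/2 * Real.log (L ω))
    rw [av_mul] at h1
    have h2 : (fun ω => Real.exp (1/2 * Real.log (L ω))) = fun ω => Real.sqrt (L ω) := by
      funext ω
      rw [Real.sqrt_eq_rpow, Real.rpow_def_of_pos (hL ω), mul_comm]
    rw [h2] at h1
    refine le_trans (Real.exp_le_exp.2 ?_) h1
    linarith
  have ha2 : 1 - K ≤ a ^ 2 := by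
    have h1 : (Real.exp (-(1/2) * K)) ^ 2 ≤ a ^ 2 :=
      pow_le_pow_left₀ (Real.exp_pos _).le ha1 2
    have h2 : (Real.exp (-(1/2) * K)) ^ 2 = Real.exp (-K) := by
      rw [← Real.exp_nat_mul]; congr 1; push_cast; ring
    have h3 := Real.add_one_le_exp (-K)
    rw [h2] at h1
    linarith
  have ha0 : 0 ≤ a := (Real.exp_pos _).le.trans ha1
  have hsq : ∀ ω, Real.sqrt (L ω) ^ 2 = L ω := fun ω => Real.sq_sqrt (hL ω).le
  have m1 : av (fun ω => (Real.sqrt (L ω) - 1) ^ 2) = 2 - 2 * a := by
    have e : (fun ω => (Real.sqrt (L ω) - 1) ^ 2) =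
        fun ω => (L ω - 2 * Real.sqrt (L ω)) + 1 := by
      funext ω
      have := hsq ω
      nlinarith
    rw [e, av_add, av_sub, av_mul, av_const]
    rw [show av (fun ω => L ω) = 1 from hL1]
    ring
  have m2 : av (fun ω => (Φ ω * (Real.sqrt (L ω) + 1)) ^ 2) ≤ 2 + 2 * a := by
    have e : ∀ ω, (Φ ω * (Real.sqrt (L ω) + 1)) ^ 2 ≤
        (L ω + 2 * Real.sqrt (L ω)) + 1 := by
      intro ω
      have h1 := hsq ω
      have h2 := abs_le.1 (hΦ1 ω)
      have h3 : Φ ω ^ 2 ≤ 1 := by nlinarith
      rw [mul_pow]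
      have h4 : 0 ≤ (Real.sqrt (L ω) + 1) ^ 2 := sq_nonneg _
      nlinarith
    refine (av_mono e).trans (le_of_eq ?_)
    rw [av_add, av_add, av_mul, av_const]
    rw [show av (fun ω => L ω) = 1 from hL1]
    ring
  have key : x - av Φ =
      av (fun ω => (Real.sqrt (L ω) - 1) * (Φ ω * (Real.sqrt (L ω) + 1))) := by
    rw [← hx, ← av_sub]
    congr 1
    funext ω
    have := hsq ω
    linear_combination (-Φ ω) * this
  have h5 := av_cs (fun ω => Real.sqrt (L ω) - 1) (fun ω => Φ ω * (Real.sqrt (L ω) + 1))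
  rw [← key, m1] at h5
  have h7 : 0 ≤ 2 - 2 * a := by
    rw [← m1]
    have := av_mono (f := fun _ : ι → Bool => (0:ℝ))
      (g := fun ω => (Real.sqrt (L ω) - 1) ^ 2) (fun ω => sq_nonneg _)
    rwa [av_const] at this
  have h6 : (x - av Φ) ^ 2 ≤ 4 * K := by
    have h8 := mul_le_mul_of_nonneg_left m2 h7
    nlinarith
  have hK0 : 0 ≤ K := by nlinarith [sq_nonneg (x - av Φ)]
  rw [show 2 * Real.sqrt K = Real.sqrt (4 * K) by
    rw [Real.sqrt_mul (by norm_num), show (4:ℝ) = 2 ^ 2 by norm_num,
      Real.sqrt_sq (by norm_num)]]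
  exact Real.abs_le_sqrt h6

/-- **Sequentially revealed bits.** -/
theorem tv_seq {w : (ι → Bool) → ℝ} {r : ℝ} (hw : Rt w r)
    {J : ℕ → (ι → Bool) → Finset ι} (hJ : Seq J) (t : ℕ) {Φ : (ι → Bool) → ℝ}
    (hΦ1 : ∀ ω, |Φ ω| ≤ 1)
    (hΦ : ∀ ω ω' : ι → Bool, (∀ i ∈ J t ω, ω i = ω' i) → Φ ω' = Φ ω) :
    |(∑ ω, Φ ω * w ω) / (∑ ω, w ω) - av Φ| ≤
      2 * Real.sqrt (-Real.log (4 * r / (1 + r) ^ 2) / 2 * av (fun ω => ((J t ω).card : ℝ))) := by
  have hwpos : 0 < ∑ ω, w ω := sum_pos (fun η _ => hw.pos _) ⟨fun _ => false, mem_univ _⟩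
  have hPpos : ∀ ω, 0 < PP (J t) w ω := fun ω =>
    sum_pos (fun η _ => hw.pos _) ⟨fun _ => false, mem_univ _⟩
  have hN : (0:ℝ) < 2 ^ Fintype.card ι := by positivity
  have hgen : ∀ Ψ : (ι → Bool) → ℝ, (∀ ω ω' : ι → Bool, (∀ i ∈ J t ω, ω i = ω' i) → Ψ ω' = Ψ ω) →
      av (fun ω => Ψ ω * (PP (J t) w ω / ∑ ω, w ω)) = (∑ ω, Ψ ω * w ω) / (∑ ω, w ω) := by
    intro Ψ hΨ
    have h1 := sum_f_PP (hJ.stop t) hΨ w
    unfold av
    have h2 : ∑ ω, Ψ ω * (PP (J t) w ω / ∑ ω, w ω) = (∑ ω, Ψ ω * PP (J t) w ω) / ∑ ω, w ω := by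
      rw [sum_div]
      exact sum_congr rfl fun ω _ => by ring
    rw [h2, h1]
    field_simp
  refine tv_of_log (L := fun ω => PP (J t) w ω / ∑ ω, w ω) (fun ω => by
    have := hPpos ω
    positivity) ?_ hΦ1 (hgen Φ hΦ) ?_
  · have h1 := hgen (fun _ => 1) fun _ _ _ => rfl
    simp only [one_mul] at h1
    rw [div_self hwpos.ne'] at h1
    exact h1
  · have h1 := log_sum hw hJ t
    have h2 : ∀ ω, Real.log (PP (J t) w ω / ∑ ω, w ω) =
        Real.log (PP (J t) w ω) - Real.log (∑ ω, w ω) := fun ω =>
      Real.log_div (hPpos ω).ne' hwpos.ne'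
    simp only [h2]
    rw [av_sub, av_const]
    set A := Real.log (4 * r / (1 + r) ^ 2) with hA
    set B := Real.log (∑ ω, w ω) with hB
    unfold av
    have h3 : -(-A / 2 * ((∑ ω, ((J t ω).card : ℝ)) / 2 ^ Fintype.card ι)) =
        (A / 2 * ∑ ω, ((J t ω).card : ℝ)) / 2 ^ Fintype.card ι := by ring
    show -(-A / 2 * ((∑ ω, ((J t ω).card : ℝ)) / 2 ^ Fintype.card ι)) ≤
      (∑ ω, Real.log (PP (J t) w ω)) / 2 ^ Fintype.card ι - B
    rw [h3, le_sub_iff_add_le, div_add' _ _ _ hN.ne', div_le_div_iff_of_pos_right hN]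
    linarith

end

end Pool.Agent.X136.IT
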